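import Mathlib
import Pool.Agent.X172.GR.Stm

set_option autoImplicit false

namespace Pool.Agent.X68.GR.LEC

open Pool.Agent.X172.GR

theorem t_LEC : Pool.Agent.X172.GR.S_LEC := by
  intro n T hn hT
  refine ⟨⟨fun u => Or.inl rfl, ?_, ?_⟩, ?_⟩
  · intro u w h
    rcases h with h | ⟨p, h1, h2, h3⟩
    · exact Or.inl h.symm
    · exact Or.inr ⟨p, h2, h1, h3⟩
  · intro u w v huw hwv
    rcases huw with h | ⟨p, h1, h2, h3⟩
    · subst h
      exact hwv
    · rcases hwv with h | ⟨q, k1, k2, k3⟩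
      · subst h
        exact Or.inr ⟨p, h1, h2, h3⟩
      · rcases List.prefix_or_prefix_of_prefix h2 k1 with h | h
        · exact Or.inr ⟨p, h1, h.trans k2, h3⟩
        · exact Or.inr ⟨q, h.trans h1, k2, k3⟩
  · intro u w g h
    rcases h with h | ⟨p, h1, h2, h3⟩
    · subst h
      exact ⟨Or.inl rfl, Or.inl rfl⟩
    · refine ⟨?_, Or.inr ⟨p, h1.trans (List.prefix_append _ _), h2.trans (List.prefix_append _ _), h3⟩⟩
      rcases h3 with h3 | h3
      · refine Or.inr ⟨g :: p, ?_, ?_, Or.inl ?_⟩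
        · exact List.cons_prefix_cons.mpr ⟨rfl, h1⟩
        · exact List.cons_prefix_cons.mpr ⟨rfl, h2⟩
        · rintro ⟨i, hi⟩
          exact h3 ⟨i + 1, hi.2⟩
      · refine Or.inr ⟨(g :: p).take n, ?_, ?_, Or.inr ?_⟩
        · exact (List.take_prefix _ _).trans (List.cons_prefix_cons.mpr ⟨rfl, h1⟩)
        · exact (List.take_prefix _ _).trans (List.cons_prefix_cons.mpr ⟨rfl, h2⟩)
        · rw [List.length_take, List.length_cons, h3]
          omega

end Pool.Agent.X68.GR.LEC
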