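import Mathlib
import Pool.Agent.X172.GR.Stm
import Pool.Agent.X131.GR.REQ
import Pool.Agent.X176.GR.REL

set_option autoImplicit false

namespace Pool.Agent.X68.GR.RER

open Pool.Agent.X172.GR
open Pool.Agent.X131.GR.REQ
open Pool.Agent.X176.GR (T_congr Rd_congr uniq Rd_get)

variable {n : ℕ} {T : ℕ → Fin 6}

theorem readable_prefix {q w : List Ltr} (h : q <+: w) (hw : Readable T w) : Readable T q := by
  obtain ⟨y, rfl⟩ := h
  obtain ⟨i, hi⟩ := hw
  exact ⟨i, ((rd_append q y i).1 hi).1⟩

/-- extending the longest readable suffix -/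
theorem suf_ext (hn : 4 ≤ n) (hT : Ty n T) {u : List Ltr} {h : Option Ltr} {m : ℕ} {z : List Ltr}
    {g : Ltr} {k : ℕ} (hu : Suf n T u h m z) (hk : Rd T k z) (hg : g.1 = T (k + n)) :
    Suf n T (u ++ [g]) h ((m + 1) % n) (z.tail ++ [g]) := by
  obtain ⟨v, hv, hvn, hvm, hzv, hzl, hc⟩ := hu
  have hr : Readable T (v ++ [g]) := by
    obtain ⟨j, hj⟩ := hv
    obtain ⟨x, rfl⟩ := hzv
    have h1 := ((rd_append _ _ _).1 hj).2
    have h2 := uniq hn hT hzl h1 hk
    refine ⟨j, (rd_append _ _ _).2 ⟨hj, ?_, trivial⟩⟩
    rw [hg]
    apply T_congr hT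
    rw [List.length_append, hzl, ← Nat.add_assoc]
    exact (Nat.ModEq.add_right n h2).symm
  refine ⟨v ++ [g], hr, ?_, ?_, ?_, ?_, ?_⟩
  · simp only [List.length_append, List.length_singleton]; omega
  · simp only [List.length_append, List.length_singleton]
    rw [← hvm, Nat.mod_add_mod]
  · obtain ⟨x, rfl⟩ := hzv
    cases z with
    | nil => simp at hzl; omega
    | cons b z =>
      refine ⟨x ++ [b], ?_⟩
      simp
  · simp only [List.length_append, List.length_singleton, List.length_tail]; omega
  · rcases hc with ⟨h1, rfl⟩ | ⟨a, y, h1, h2, h3⟩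
    · exact Or.inl ⟨h1, rfl⟩
    · refine Or.inr ⟨a, y, h1, ?_, ?_⟩
      · rw [h2]; simp
      · intro h4
        apply h3
        apply readable_prefix _ h4
        exact ⟨[g], by simp⟩

theorem suf_suffix {u : List Ltr} {h : Option Ltr} {m : ℕ} {z : List Ltr} (hu : Suf n T u h m z) :
    z <:+ u := by
  obtain ⟨v, hv, hvn, hvm, hzv, hzl, hc⟩ := hu
  rcases hc with ⟨h1, rfl⟩ | ⟨a, y, h1, h2, h3⟩
  · exact hzv
  · rw [h2]
    exact hzv.trans ((List.suffix_cons _ _).trans (List.suffix_append _ _))

theorem suf_m {u : List Ltr} {h : Option Ltr} {m : ℕ} {z : List Ltr} (hn : 4 ≤ n)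
    (hu : Suf n T u h m z) : m < n := by
  obtain ⟨v, hv, hvn, hvm, hzv, hzl, hc⟩ := hu
  rw [← hvm]
  exact Nat.mod_lt _ (by omega)

theorem suffix_snoc {q u : List Ltr} (g : Ltr) (h : q <:+ u) : q ++ [g] <:+ u ++ [g] := by
  obtain ⟨x, rfl⟩ := h
  exact ⟨x, by simp⟩

theorem getD_eq {z : List Ltr} {j : ℕ} (hj : j < z.length) : z.getD j (0, false) = z[j] := by
  simp [List.getD_eq_getElem?_getD, hj]

theorem bit_shift {z : List Ltr} {g : Ltr} {j : ℕ} (hj : j + 1 < z.length) :
    bit (z.tail ++ [g]) j = bit z (j + 1) := by
  cases z with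
  | nil => simp at hj
  | cons b z =>
    unfold bit
    simp only [List.length_cons] at hj
    rw [List.tail_cons, List.getD_cons_succ, List.getD_append _ _ _ _ (by omega)]

theorem bit_top {z z' : List Ltr} {g : Ltr} {j : ℕ} (hz : z.length = z'.length)
    (h0 : 0 < z.length) (hj : z.length ≤ j + 1) :
    bit (z.tail ++ [g]) j = bit (z'.tail ++ [g]) j := by
  unfold bit
  rw [List.getD_append_right _ _ _ _ (by rw [List.length_tail]; omega),
    List.getD_append_right _ _ _ _ (by rw [List.length_tail]; omega)]
  rw [List.length_tail, List.length_tail, hz]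

/-- equality of drops -/
theorem drop_eq {z z' : List Ltr} {k : ℕ} (hz : z.length = z'.length) (h1 : Rd T k z)
    (h2 : Rd T k z') (c : ℕ) (h : ∀ j, c ≤ j → bit z j = bit z' j) : z.drop c = z'.drop c := by
  apply List.ext_getElem (by rw [List.length_drop, List.length_drop, hz])
  intro j hj hj'
  rw [List.length_drop] at hj hj'
  rw [List.getElem_drop, List.getElem_drop]
  refine Prod.ext ?_ ?_
  · rw [Rd_get h1 _ (by omega), Rd_get h2 _ (by omega)]
  · have := h (c + j) (by omega)
    unfold bit at this
    rwa [getD_eq (by omega), getD_eq (by omega)] at this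

theorem rd_tail {k : ℕ} {z : List Ltr} {g : Ltr} (h : Rd T k z) (hz : 0 < z.length)
    (hg : g.1 = T (k + z.length)) : Rd T (k + 1) (z.tail ++ [g]) := by
  cases z with
  | nil => simp at hz
  | cons b z =>
    rw [List.tail_cons]
    refine (rd_append _ _ _).2 ⟨h.2, ?_, trivial⟩
    rw [hg]
    congr 1
    simp only [List.length_cons]
    omega

theorem t_RER : Pool.Agent.X172.GR.S_RER := by
  intro n T hn hT u w g hR
  rcases hR with rfl | ⟨q, hq1, hq2, hq⟩ | ⟨h, m, z, z', hu, hw, hz⟩
  · exact Or.inl rfl
  · exact Or.inr (Or.inl ⟨q ++ [g], suffix_snoc g hq1, suffix_snoc g hq2,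
      fun h => hq (readable_prefix (List.prefix_append _ _) h)⟩)
  · rcases hz with rfl | ⟨hh, hF⟩
    · by_cases hr : Readable T (z ++ [g])
      · obtain ⟨k, hk⟩ := hr
        have hzl : z.length = n := by
          obtain ⟨v, hv, hvn, hvm, hzv, hzl, hc⟩ := hu
          exact hzl
        have h1 := (rd_append _ _ _).1 hk
        have h2 : g.1 = T (k + n) := by
          rw [← hzl]
          exact h1.2.1
        exact Or.inr (Or.inr ⟨h, (m + 1) % n, _, _, suf_ext hn hT hu h1.1 h2,
          suf_ext hn hT hw h1.1 h2, Or.inl rfl⟩)
      · exact Or.inr (Or.inl ⟨z ++ [g], suffix_snoc g (suf_suffix hu), suffix_snoc g (suf_suffix hw),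
          hr⟩)
    · have hm := suf_m hn hu
      obtain ⟨hz1, hz2, k, hkn, hk1, hk2, hC, hne, heq⟩ := hF
      have ha : (n - m) % n + k < n - 1 := by
        rcases hC with ⟨c1, c2, -⟩ | ⟨-, c2, -⟩
        · omega
        · exact c2
      by_cases hg : g.1 = T (k + n)
      · refine Or.inr (Or.inr ⟨h, (m + 1) % n, _, _, suf_ext hn hT hu hk1 hg,
          suf_ext hn hT hw hk2 hg, ?_⟩)
        by_cases hm0 : m = 0
        · left
          have h1 : z.drop 1 = z'.drop 1 := by
            apply drop_eq (T := T) (by omega) hk1 hk2
            intro j hj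
            apply heq
            rw [hm0]
            simp
            omega
          rw [List.drop_one, List.drop_one] at h1
          rw [h1]
        · right
          refine ⟨hh, ?_⟩
          have e1 : (n - m) % n = n - m := Nat.mod_eq_of_lt (by omega)
          have e2 : (n - (m + 1) % n) % n = n - m - 1 := by
            rcases Nat.lt_or_ge (m + 1) n with h5 | h5
            · rw [Nat.mod_eq_of_lt h5, Nat.mod_eq_of_lt (by omega)]
              omega
            · rw [show m + 1 = n by omega, Nat.mod_self, Nat.sub_zero, Nat.mod_self]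
              omega
          rw [e1] at hC hne heq ha
          refine ⟨?_, ?_, k + 1, by omega, ?_, ?_, ?_, ?_, ?_⟩
          · simp only [List.length_append, List.length_singleton, List.length_tail]; omega
          · simp only [List.length_append, List.length_singleton, List.length_tail]; omega
          · exact rd_tail hk1 (by omega) (by rw [hz1]; exact hg)
          · exact rd_tail hk2 (by omega) (by rw [hz2]; exact hg)
          · rw [e2]
            right
            rcases hC with ⟨c1, c2, -⟩ | ⟨c1, c2, c3, c4⟩
            · omega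
            · refine ⟨by unfold lo; simp, by omega, ?_, ?_⟩
              · intro j hj1 hj2
                rw [bit_shift (by omega)]
                refine c3 (j + 1) ?_ (by omega)
                unfold lo
                split_ifs <;> omega
              · intro j hj1 hj2
                rw [bit_shift (by omega)]
                exact c4 (j + 1) (by omega) (by omega)
          · rw [e2, bit_shift (by omega), bit_shift (by omega), show n - m - 1 + 1 = n - m by omega]
            exact hne
          · intro j hj
            rw [e2] at hj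
            rcases Nat.lt_or_ge (j + 1) n with h5 | h5
            · rw [bit_shift (by omega), bit_shift (by omega)]
              exact heq _ (by omega)
            · exact bit_top (by omega) (by omega) (by omega)
      · have h1 : z.drop (n - 1 - k) = z'.drop (n - 1 - k) := by
          apply drop_eq (T := T) (by omega) hk1 hk2
          intro j hj
          apply heq
          omega
        refine Or.inr (Or.inl ⟨z.drop (n - 1 - k) ++ [g], ?_, ?_, ?_⟩)
        · exact suffix_snoc g ((List.drop_suffix _ _).trans (suf_suffix hu))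
        · rw [h1]
          exact suffix_snoc g ((List.drop_suffix _ _).trans (suf_suffix hw))
        · rintro ⟨i, hi⟩
          have h2 := (rd_append _ _ _).1 hi
          have hl : (z.drop (n - 1 - k)).length = k + 1 := by
            rw [List.length_drop]; omega
          have h3 := Rd_get h2.1 0 (by omega)
          rw [List.getElem_drop, Rd_get hk1 _ (by omega)] at h3
          have h4 : T (k + (n - 1 - k + 0)) = 4 := by
            rw [hT.hash]
            exact ⟨1, by omega⟩
          have h5 : n ∣ i + 0 + 1 := (hT.hash (i + 0)).1 (h3 ▸ h4)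
          apply hg
          have h6 := h2.2.1
          rw [hl] at h6
          rw [h6]
          apply T_congr hT
          obtain ⟨c, hc⟩ := h5
          rw [show i + (k + 1) = k + n * c by omega, Nat.add_mul_mod_self_left, Nat.add_mod_right]

end Pool.Agent.X68.GR.RER
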